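import Pool.Agent.MP_69a10d_gt.Mg.CapUpper

namespace Pool.Agent.Results.MP_69a10d_gt.NotMaximal

open Pool.Agent.MP_69a10d_gt

/-- There is a bounded smooth open convex region `Ω = {ρ < 0}` of Euclidean 3-space and an admissible
asymptotically flat extension `({σ ≥ 0}, g)` of the Bartnik data of its boundary in which the capacity of
the boundary is strictly larger than the Euclidean capacity of the boundary of `Ω`. -/
theorem result : ∃ (ρ σ : E3 → ℝ) (g : Met) (ι : E3 → E3),
    IsSmoothBoundedRegion ρ ∧ Convex ℝ {x | ρ x < 0} ∧ IsAdmissibleExtension ρ σ g ι ∧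
      capacity (fun _ => 1) ρ < capacity g σ :=
  ⟨rho, ell 1 1, gM, iotaL, region_rho, convex_rho, admissible_gM,
    capacity_rho_le.trans_lt (lt_of_lt_of_le
      ((ENNReal.ofReal_lt_ofReal_iff (by norm_num)).2 (by norm_num)) capacity_gM_ge)⟩

end Pool.Agent.Results.MP_69a10d_gt.NotMaximal
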